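import Pool.Agent.K4H18.DG.A5

/-! # A central limit theorem for the lowest digits of powers

Let `q` be a prime and `p ≥ 2` an integer prime to `q`.  For random `n < M` the words of `w` digits of `l p ^ n` in
base `q` in a window of `L → ∞` places below `C log M` (`C` as large as we please) satisfy the central limit theorem
for every function `F` of words, with the mean and the variance of independent uniform digits; in particular the
number of digits `b` in the window is asymptotically normal with mean `L / q` and variance `L (q - 1) / q ^ 2`. -/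

set_option autoImplicit false

namespace Pool.Agent.Results.MP_b08cb4_nt.GaussianLowDigits

open Finset Filter Topology ProbabilityTheory

/-- the mean of `F` over the `q ^ w` words of `w` digits (words are written as numbers `< q ^ w`) -/
noncomputable def mean (q w : ℕ) (F : ℕ → ℝ) : ℝ := (∑ c ∈ range (q ^ w), F c) / (q : ℝ) ^ w

/-- the covariance of the values of `F` at two words of `w` digits at the distance `h` in a sequence of independent
uniform digits: `c < q ^ (w + h)` contains the words `c / q ^ h` and `c % q ^ w` -/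
noncomputable def cov (q w : ℕ) (F : ℕ → ℝ) (h : ℕ) : ℝ :=
  (∑ c ∈ range (q ^ (w + h)), (F (c / q ^ h) - mean q w F) * (F (c % q ^ w) - mean q w F)) / (q : ℝ) ^ (w + h)

/-- the variance constant: the sum of all covariances (those at the distances `h ≥ w` vanish) -/
noncomputable def variance (q w : ℕ) (F : ℕ → ℝ) : ℝ := cov q w F 0 + 2 * ∑ h ∈ Ico 1 w, cov q w F h

/-- the normal distribution function -/
noncomputable def Phi (a : ℝ) : ℝ := (gaussianReal 0 1).real (Set.Iic a)

lemma variance_digit {q : ℕ} (hq : 2 ≤ q) {b : ℕ} (hb : b < q) :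
    mean q 1 (fun c => if c = b then 1 else 0) = 1 / q ∧
      variance q 1 (fun c => if c = b then 1 else 0) = ((q : ℝ) - 1) / q ^ 2 := by
  have hq0 : (q : ℝ) ≠ 0 := by positivity
  have h1 : mean q 1 (fun c => if c = b then (1 : ℝ) else 0) = 1 / q := by
    unfold mean
    rw [pow_one, pow_one, sum_ite_eq', if_pos (mem_range.2 hb)]
  refine ⟨h1, ?_⟩
  unfold variance cov
  rw [h1]
  simp only [Nat.add_zero, pow_one, pow_zero, Nat.div_one, Ico_self, sum_empty, mul_zero, add_zero]
  have h2 : ∀ c ∈ range q, ((if c = b then (1 : ℝ) else 0) - 1 / q) * ((if c % q = b then (1 : ℝ) else 0) - 1 / q) =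
      (if c = b then (1 - 2 / q : ℝ) else 0) + 1 / q ^ 2 := by
    intro c hc
    rw [Nat.mod_eq_of_lt (mem_range.1 hc)]
    split_ifs
    · field_simp; ring
    · field_simp; ring
  rw [sum_congr rfl h2, sum_add_distrib, sum_ite_eq', if_pos (mem_range.2 hb), sum_const, card_range, nsmul_eq_mul]
  field_simp
  ring

/-- **the central limit theorem for the lowest digits of powers** -/
theorem result (q p : ℕ) (hq : q.Prime) (hp2 : 2 ≤ p) (hp : ¬ q ∣ p) (C : ℝ) (l i₀ L : ℕ → ℕ)
    (hl : ∀ M, ¬ q ∣ l M) (hL : Tendsto L atTop atTop)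
    (hC : ∀ᶠ M : ℕ in atTop, ((i₀ M + L M : ℕ) : ℝ) ≤ C * Real.log M) (a : ℝ) :
    (∀ (w : ℕ) (F : ℕ → ℝ), 1 ≤ w → 0 < variance q w F →
      Tendsto (fun M : ℕ => (((range M).filter (fun n =>
        ∑ i ∈ range (L M), F (l M * p ^ n / q ^ (i₀ M + i) % q ^ w) - L M * mean q w F ≤
          a * √(variance q w F * L M))).card : ℝ) / M) atTop (𝓝 (Phi a))) ∧
    (∀ b < q, Tendsto (fun M : ℕ => (((range M).filter (fun n =>
        (((range (L M)).filter (fun i => l M * p ^ n / q ^ (i₀ M + i) % q = b)).card : ℝ) - L M / q ≤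
          a * √(L M * ((q : ℝ) - 1) / q ^ 2))).card : ℝ) / M) atTop (𝓝 (Phi a))) := by
  have main : ∀ (w : ℕ) (F : ℕ → ℝ), 1 ≤ w → 0 < variance q w F →
      Tendsto (fun M : ℕ => (((range M).filter (fun n =>
        ∑ i ∈ range (L M), F (l M * p ^ n / q ^ (i₀ M + i) % q ^ w) - L M * mean q w F ≤
          a * √(variance q w F * L M))).card : ℝ) / M) atTop (𝓝 (Phi a)) := by
    intro w F hw hF
    exact Pool.Agent.K4H18.DG.clt_low hq hp2 hp hw F hF C l i₀ L hl hL hC a
  refine ⟨main, fun b hb => ?_⟩
  obtain ⟨h1, h2⟩ := variance_digit hq.two_le hb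
  have hqR : (1 : ℝ) < q := by exact_mod_cast hq.one_lt
  have h3 := main 1 (fun c => if c = b then 1 else 0) le_rfl (by
    rw [h2]
    apply div_pos <;> [linarith; positivity])
  rw [h1, h2] at h3
  refine h3.congr fun M => ?_
  congr 3
  apply filter_congr
  intro n _
  have e1 : ∑ i ∈ range (L M), (if l M * p ^ n / q ^ (i₀ M + i) % q ^ 1 = b then (1 : ℝ) else 0) =
      ((range (L M)).filter (fun i => l M * p ^ n / q ^ (i₀ M + i) % q = b)).card := by
    rw [card_filter]
    push_cast
    rw [pow_one]
  rw [e1]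
  have e2 : ((q : ℝ) - 1) / q ^ 2 * L M = L M * ((q : ℝ) - 1) / q ^ 2 := by ring
  have e3 : (L M : ℝ) * (1 / q) = L M / q := by ring
  rw [e2, e3]

end Pool.Agent.Results.MP_b08cb4_nt.GaussianLowDigits
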