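import Pool.Agent.K4H18.DM.B6

/-! # A central limit theorem for the digits of the multiples of powers

Let `p, q ≥ 2` be coprime, `N ≤ A log M` (so that `M` may be a small power of `p ^ N`) and let `m ≤ M` be random.

* The words of `w` digits of `m p ^ N + y` in base `q` in every window of `L → ∞` places below
  `log_q (p ^ N M ^ (1 - ε))` satisfy the central limit theorem for every function of words.
* The sum of `f (d)` over all digits `d` of `m p ^ N + y` in base `q`, `0 ≤ y < p ^ N`, is asymptotically normal, with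
  the mean and the variance of `log_q (M p ^ N)` independent uniform digits; in particular this holds for the number
  of digits `b` and for the sum of the digits. -/

set_option autoImplicit false

namespace Pool.Agent.Results.MP_b08cb4_nt.GaussianMultiples

open Finset Filter Topology ProbabilityTheory

/-- the mean of `F` over the `q ^ w` words of `w` digits (words are written as numbers `< q ^ w`) -/
noncomputable def mean (q w : ℕ) (F : ℕ → ℝ) : ℝ := (∑ c ∈ range (q ^ w), F c) / (q : ℝ) ^ w

/-- the covariance of the values of `F` at two words of `w` digits at the distance `h` in a sequence of independent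
uniform digits: `c < q ^ (w + h)` contains the words `c / q ^ h` and `c % q ^ w` -/
noncomputable def cov (q w : ℕ) (F : ℕ → ℝ) (h : ℕ) : ℝ :=
  (∑ c ∈ range (q ^ (w + h)), (F (c / q ^ h) - mean q w F) * (F (c % q ^ w) - mean q w F)) / (q : ℝ) ^ (w + h)

/-- the variance constant: the sum of all covariances (those at the distances `h ≥ w` vanish) -/
noncomputable def variance (q w : ℕ) (F : ℕ → ℝ) : ℝ := cov q w F 0 + 2 * ∑ h ∈ Ico 1 w, cov q w F h

/-- the normal distribution function -/
noncomputable def Phi (a : ℝ) : ℝ := (gaussianReal 0 1).real (Set.Iic a)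

lemma variance_digit {q : ℕ} (hq : 2 ≤ q) {b : ℕ} (hb : b < q) :
    mean q 1 (fun c => if c = b then 1 else 0) = 1 / q ∧
      variance q 1 (fun c => if c = b then 1 else 0) = ((q : ℝ) - 1) / q ^ 2 := by
  have hq0 : (q : ℝ) ≠ 0 := by positivity
  have h1 : mean q 1 (fun c => if c = b then (1 : ℝ) else 0) = 1 / q := by
    unfold mean
    rw [pow_one, pow_one, sum_ite_eq', if_pos (mem_range.2 hb)]
  refine ⟨h1, ?_⟩
  unfold variance cov
  rw [h1]
  simp only [Nat.add_zero, pow_one, pow_zero, Nat.div_one, Ico_self, sum_empty, mul_zero, add_zero]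
  have h2 : ∀ c ∈ range q, ((if c = b then (1 : ℝ) else 0) - 1 / q) * ((if c % q = b then (1 : ℝ) else 0) - 1 / q) =
      (if c = b then (1 - 2 / q : ℝ) else 0) + 1 / q ^ 2 := by
    intro c hc
    rw [Nat.mod_eq_of_lt (mem_range.1 hc)]
    split_ifs
    · field_simp; ring
    · field_simp; ring
  rw [sum_congr rfl h2, sum_add_distrib, sum_ite_eq', if_pos (mem_range.2 hb), sum_const, card_range, nsmul_eq_mul]
  field_simp
  ring

/-- **the central limit theorem for the digits of the multiples of powers** -/
theorem result (p q : ℕ) (hp : 2 ≤ p) (hq : 2 ≤ q) (hpq : p.Coprime q) (A : ℝ) (N y : ℕ → ℕ)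
    (hN : ∀ᶠ M : ℕ in atTop, (N M : ℝ) ≤ A * Real.log M) (a : ℝ) :
    -- words in windows
    (∀ (w : ℕ) (F : ℕ → ℝ) (ε : ℝ) (i₀ L : ℕ → ℕ), 1 ≤ w → 0 < variance q w F → 0 < ε → ε ≤ 1 →
      Tendsto L atTop atTop →
      (∀ᶠ M : ℕ in atTop, (q : ℝ) ^ (i₀ M + L M + w) ≤ (p : ℝ) ^ (N M) * (M : ℝ) ^ (1 - ε)) →
      Tendsto (fun M : ℕ => (((Icc 1 M).filter (fun m =>
        ∑ i ∈ range (L M), F ((m * p ^ N M + y M) / q ^ (i₀ M + i) % q ^ w) - L M * mean q w F ≤
          a * √(variance q w F * L M))).card : ℝ) / M) atTop (𝓝 (Phi a))) ∧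
    -- sums over all digits
    (∀ f : ℕ → ℝ, 0 < variance q 1 f → (∀ M, y M < p ^ N M) →
      Tendsto (fun M : ℕ => (((Icc 1 M).filter (fun m =>
        ((Nat.digits q (m * p ^ N M + y M)).map f).sum - Real.logb q (M * (p : ℝ) ^ N M) * mean q 1 f ≤
          a * √(variance q 1 f * Real.logb q (M * (p : ℝ) ^ N M)))).card : ℝ) / M) atTop (𝓝 (Phi a))) ∧
    -- the number of digits `b`
    (∀ b < q, (∀ M, y M < p ^ N M) →
      Tendsto (fun M : ℕ => (((Icc 1 M).filter (fun m =>
        ((Nat.digits q (m * p ^ N M + y M)).count b : ℝ) - Real.logb q (M * (p : ℝ) ^ N M) / q ≤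
          a * √(((q : ℝ) - 1) / q ^ 2 * Real.logb q (M * (p : ℝ) ^ N M)))).card : ℝ) / M) atTop (𝓝 (Phi a))) := by
  have hqR : (2 : ℝ) ≤ q := by exact_mod_cast hq
  have main : ∀ f : ℕ → ℝ, 0 < variance q 1 f → (∀ M, y M < p ^ N M) →
      Tendsto (fun M : ℕ => (((Icc 1 M).filter (fun m =>
        ((Nat.digits q (m * p ^ N M + y M)).map f).sum - Real.logb q (M * (p : ℝ) ^ N M) * mean q 1 f ≤
          a * √(variance q 1 f * Real.logb q (M * (p : ℝ) ^ N M)))).card : ℝ) / M) atTop (𝓝 (Phi a)) := by
    intro f hf hy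
    have e1 : variance q 1 f = Pool.Agent.K4H18.DM.sg q f := Pool.Agent.K4H18.DM.cv_one q f
    have e2 : mean q 1 f = Pool.Agent.K4H18.DM.mu q f := Pool.Agent.K4H18.DM.mn_one q f
    rw [e1] at hf
    rw [e1, e2]
    exact Pool.Agent.K4H18.DM.clt_all hp hq hpq f hf A N y hy hN a
  refine ⟨?_, main, fun b hb hy => ?_⟩
  · intro w F ε i₀ L hw hF hε hε1 hL hcond
    have hlq : 0 < Real.log (q : ℝ) := Real.log_pos (by linarith)
    have hpR : (2 : ℝ) ≤ p := by exact_mod_cast hp
    have hlp : 0 < Real.log (p : ℝ) := Real.log_pos (by linarith)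
    have h1 := Pool.Agent.Y933.KE.clt_smear (q := q) (w := w) (by omega) hw F hF
      (A := (|A| * Real.log p + 1) / Real.log q) (Pool.Agent.K4H18.DM.SP2_prob p q A (ε / 3))
      (fun k => Pool.Agent.K4H18.DM.tw_pow2 hp hq hpq A (ε / 3) (by positivity) (by linarith) k _)
      (fun M => Icc 1 M) (fun M m => m * p ^ (N M) + y M) i₀ L hL (by
        filter_upwards [hN, hcond, eventually_ge_atTop 1] with M hM1 hM2 hM
        have hMR : (1 : ℝ) ≤ M := by exact_mod_cast hM
        have hMp : (0 : ℝ) < M := by linarith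
        have hlM : 0 ≤ Real.log (M : ℝ) := Real.log_nonneg hMR
        have hsub : (q : ℝ) ^ (i₀ M + L M + w - 1) ≤ (p : ℝ) ^ (N M) * (M : ℝ) ^ (1 - ε) := by
          refine le_trans ?_ hM2
          exact pow_le_pow_right₀ (by linarith) (by omega)
        refine ⟨⟨1, by rw [mem_Icc]; exact ⟨le_rfl, hM⟩⟩, ⟨N M, _, y M, hM1, ?_, rfl⟩, ?_⟩
        · have e1 : 3 * (ε / 3) = ε := by ring
          rw [e1]
          exact hsub
        · have h2 := Real.log_le_log (by positivity) hsub
          rw [Real.log_pow, Real.log_mul (by positivity) (by positivity), Real.log_pow, Real.log_rpow hMp] at h2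
          rw [div_mul_eq_mul_div, le_div_iff₀ hlq]
          refine h2.trans ?_
          have h3 : (N M : ℝ) * Real.log p ≤ (|A| * Real.log M) * Real.log p := by
            gcongr
            refine hM1.trans ?_
            gcongr
            exact le_abs_self A
          have h4 : (1 - ε) * Real.log M ≤ 1 * Real.log M := by
            gcongr
            linarith
          calc (N M : ℝ) * Real.log p + (1 - ε) * Real.log M ≤
                (|A| * Real.log M) * Real.log p + 1 * Real.log M := by linarith
            _ = (|A| * Real.log p + 1) * Real.log M := by ring) a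
    refine h1.congr fun M => ?_
    rw [Nat.card_Icc, Nat.add_sub_cancel]
    rfl
  · obtain ⟨h1, h2⟩ := variance_digit hq hb
    have h3 := main (fun c => if c = b then 1 else 0) (by
      rw [h2]
      apply div_pos
      · linarith
      · positivity) hy
    rw [h1, h2] at h3
    refine h3.congr fun M => ?_
    congr 3
    apply filter_congr
    intro m _
    have e1 : ((Nat.digits q (m * p ^ N M + y M)).map (fun c => if c = b then (1 : ℝ) else 0)).sum =
        ((Nat.digits q (m * p ^ N M + y M)).count b : ℝ) := by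
      generalize Nat.digits q (m * p ^ N M + y M) = l
      induction l with
      | nil => simp
      | cons x l ih =>
        rw [List.map_cons, List.sum_cons, ih, List.count_cons]
        by_cases h : x = b
        · simp [h]; ring
        · simp [h]
    rw [e1]
    have e3 : Real.logb q (M * (p : ℝ) ^ N M) * (1 / q) = Real.logb q (M * (p : ℝ) ^ N M) / q := by ring
    rw [e3]

end Pool.Agent.Results.MP_b08cb4_nt.GaussianMultiples
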