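import Pool.Agent.K4H18.PO.P7

/-! # Rare words and longest runs in the digits of powers

Two families of random numbers `X` are considered, with windows of places of their base `q` digits:

* powers: `X = l p ^ n` with random `n < M`, where `q` is a prime not dividing `p` and `l`, and windows between the
  place `s = s(p, q)` and the place `A log M`;
* multiples of powers: `X = m p ^ N + y` with random `m ∈ [1, M]`, where `p, q` are coprime, `N ≤ A log M`, and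
  windows `[i₀, i₀ + D)` with `q ^ (i₀ + D) ≤ p ^ N M ^ (1 - κ)`.

The theorem: for sets `W` of words without overlaps the number of occurrences of words of `W` at `L` consecutive
places is asymptotically Poisson distributed with mean `L |W| / q ^ ℓ`, uniformly as long as this is bounded and
the length `ℓ` of the words is `o(L)`; and for a window of `D` places the longest run of the digit `b` has the same
limit law as for random digits: it is shorter than `k` with probability `exp (- (1 - 1 / q) D / q ^ k) + o(1)` as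
`D → ∞`, uniformly in `k` and in the window. -/

set_option autoImplicit false

namespace Pool.Agent.Results.MP_b08cb4_nt.LongestRuns

open Finset

/-- the number of the `i < L` such that the digits of `X` in base `q` at the places `i₀ + i, …, i₀ + i + ℓ - 1` form
a word of `W`; a word of `ℓ` digits is written as a number `< q ^ ℓ`, and the place `i` is that of `q ^ i` -/
def occurrences (q ℓ : ℕ) (W : Finset ℕ) (i₀ L X : ℕ) : ℕ :=
  ((range L).filter (fun i => X / q ^ (i₀ + i) % q ^ ℓ ∈ W)).card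

/-- words of `W` cannot overlap: no word `c` of `ℓ + h` digits, `1 ≤ h < ℓ`, has both its `ℓ` highest digits and its
`ℓ` lowest digits in `W` -/
def NonOverlapping (q ℓ : ℕ) (W : Finset ℕ) : Prop :=
  ∀ h, 1 ≤ h → h < ℓ → ∀ c < q ^ (ℓ + h), ¬ (c / q ^ h ∈ W ∧ c % q ^ ℓ ∈ W)

/-- among the `D` digits of `X` at the places `i₀, …, i₀ + D - 1` there are `k` consecutive ones equal to `b` -/
def HasRun (q b k i₀ D X : ℕ) : Prop := ∃ i, i + k ≤ D ∧ ∀ t < k, X / q ^ (i₀ + i + t) % q = b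

/-- the probability of `j` under the Poisson law with mean `lam` -/
noncomputable def poisson (lam : ℝ) (j : ℕ) : ℝ := Real.exp (-lam) * lam ^ j / j.factorial

open Classical in
/-- the proportion of the `m ∈ S` with the property `E` -/
noncomputable def prob (S : Finset ℕ) (E : ℕ → Prop) : ℝ := ((S.filter E).card : ℝ) / S.card

/-- Poisson law for rare words.  Here `𝓕 M` is a set of quadruples `(S, X, i₀, D)`: the number `X m` for random
`m ∈ S`, in the window of the places `i₀, …, i₀ + D - 1`. -/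
def PoissonLaw (q : ℕ) (𝓕 : ℕ → Set (Finset ℕ × (ℕ → ℕ) × ℕ × ℕ)) : Prop :=
  ∀ (Lam : ℝ) (j : ℕ) (ε : ℝ), 0 < ε → ∃ δ : ℝ, 0 < δ ∧ ∃ M₀ : ℕ, ∀ M ≥ M₀, ∀ S X i₀ D, (S, X, i₀, D) ∈ 𝓕 M →
    ∀ (ℓ L : ℕ) (W : Finset ℕ), (∀ c ∈ W, c < q ^ ℓ) → NonOverlapping q ℓ W → L + ℓ ≤ D + 1 →
      (ℓ : ℝ) ≤ δ * L → 1 ≤ δ * L → L * (W.card / (q : ℝ) ^ ℓ) ≤ Lam →
        |prob S (fun m => occurrences q ℓ W i₀ L (X m) = j) - poisson (L * (W.card / (q : ℝ) ^ ℓ)) j| ≤ ε

/-- the law of the longest run of the digit `b` -/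
def RunLaw (q b : ℕ) (𝓕 : ℕ → Set (Finset ℕ × (ℕ → ℕ) × ℕ × ℕ)) : Prop :=
  ∀ ε : ℝ, 0 < ε → ∃ D₀ M₀ : ℕ, ∀ M ≥ M₀, ∀ S X i₀ D, (S, X, i₀, D) ∈ 𝓕 M → D₀ ≤ D → ∀ k : ℕ,
    |prob S (fun m => ¬ HasRun q b k i₀ D (X m)) - Real.exp (-((1 - 1 / (q : ℝ)) * (D / (q : ℝ) ^ k)))| ≤ ε

/-- the powers: `l p ^ n` with random `n < M`, `q ∤ l`, windows between the places `s` and `A log M` -/
def powers (p q s : ℕ) (A : ℝ) (M : ℕ) : Set (Finset ℕ × (ℕ → ℕ) × ℕ × ℕ) :=
  {f | ∃ l i₀ D : ℕ, ¬ q ∣ l ∧ s ≤ i₀ ∧ (i₀ + D : ℝ) ≤ A * Real.log M ∧ f = (range M, fun n => l * p ^ n, i₀, D)}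

/-- the multiples of powers: `m p ^ N + y` with random `m ∈ [1, M]`, `N ≤ A log M`, and windows
`[i₀, i₀ + D)` with `q ^ (i₀ + D) ≤ p ^ N M ^ (1 - κ)` -/
def multiples (p q : ℕ) (A κ : ℝ) (M : ℕ) : Set (Finset ℕ × (ℕ → ℕ) × ℕ × ℕ) :=
  {f | ∃ N y i₀ D : ℕ, (N : ℝ) ≤ A * Real.log M ∧ (q : ℝ) ^ (i₀ + D) ≤ (p : ℝ) ^ N * (M : ℝ) ^ (1 - κ) ∧
    f = (Icc 1 M, fun m => m * p ^ N + y, i₀, D)}

/-- **rare words and longest runs in the digits of powers and of their multiples** -/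
theorem result (p q : ℕ) (hp : 2 ≤ p) (hq : 2 ≤ q) :
    (q.Prime → ¬ q ∣ p → ∃ s : ℕ, ∀ A : ℝ, PoissonLaw q (powers p q s A) ∧ ∀ b < q, RunLaw q b (powers p q s A)) ∧
    (p.Coprime q → ∀ A κ : ℝ, 0 < κ → κ ≤ 1 →
      PoissonLaw q (multiples p q A κ) ∧ ∀ b < q, RunLaw q b (multiples p q A κ)) := by
  classical
  have hprob : ∀ (S : Finset ℕ) (X : ℕ → ℕ) (E : Set ℕ),
      prob S (fun m => X m ∈ E) = Pool.Agent.K4H18.PO.pr S X E := by
    intro S X E
    unfold prob Pool.Agent.K4H18.PO.pr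
    rfl
  constructor
  · intro hqp hpq
    obtain ⟨s, hs⟩ := Pool.Agent.K4H18.DG.tw_low hqp hp hpq
    refine ⟨s, fun A => ⟨?_, ?_⟩⟩
    · intro Lam j ε hε
      obtain ⟨δ, hδ, M0, h⟩ := Pool.Agent.K4H18.PO.poisson_low hq hs A Lam j ε hε
      refine ⟨δ, hδ, M0, ?_⟩
      intro M hM S X i₀ D hf ℓ L W hW hNO hLD hℓ hL hlam
      obtain ⟨l, i₀', D', hl, hsi, hwin, hf⟩ := hf
      obtain ⟨rfl, rfl, rfl, rfl⟩ : S = range M ∧ X = (fun n => l * p ^ n) ∧ i₀ = i₀' ∧ D = D' := by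
        simpa using hf
      have h1 := h M hM (i₀, D, Pool.Agent.K4H18.PO.pr (range M) (fun n => l * p ^ n))
        ⟨l, hl, hsi, by simpa using hwin, rfl⟩ ℓ L W (fun c hc => mem_range.2 (hW c hc)) hNO hLD hℓ hL hlam
      exact h1
    · intro b hb ε hε
      obtain ⟨D0, M0, h⟩ := Pool.Agent.K4H18.PO.run_low hq hb hs A ε hε
      refine ⟨D0, M0, ?_⟩
      intro M hM S X i₀ D hf hD k
      obtain ⟨l, i₀', D', hl, hsi, hwin, hf⟩ := hf
      obtain ⟨rfl, rfl, rfl, rfl⟩ : S = range M ∧ X = (fun n => l * p ^ n) ∧ i₀ = i₀' ∧ D = D' := by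
        simpa using hf
      have h1 := h M hM (i₀, D, Pool.Agent.K4H18.PO.pr (range M) (fun n => l * p ^ n))
        ⟨l, hl, hsi, by simpa using hwin, rfl⟩ hD k
      exact h1
  · intro hpq A κ hκ hκ1
    have e3 : 3 * (κ / 3) = κ := by ring
    have hκ' : 0 < κ / 3 := by positivity
    have hκ3 : 3 * (κ / 3) ≤ 1 := by rw [e3]; exact hκ1
    refine ⟨?_, ?_⟩
    · intro Lam j ε hε
      obtain ⟨δ, hδ, M0, h⟩ := Pool.Agent.K4H18.PO.poisson_mul hp hq hpq A (κ / 3) hκ' hκ3 Lam j ε hε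
      refine ⟨δ, hδ, M0, ?_⟩
      intro M hM S X i₀ D hf ℓ L W hW hNO hLD hℓ hL hlam
      obtain ⟨N, y, i₀', D', hN, hJ, hf⟩ := hf
      obtain ⟨rfl, rfl, rfl, rfl⟩ : S = Icc 1 M ∧ X = (fun m => m * p ^ N + y) ∧ i₀ = i₀' ∧ D = D' := by
        simpa using hf
      have h1 := h M hM (i₀, D, Pool.Agent.K4H18.PO.pr (Icc 1 M) (fun m => m * p ^ N + y))
        ⟨N, y, hN, by rw [e3]; exact hJ, rfl⟩ ℓ L W (fun c hc => mem_range.2 (hW c hc)) hNO hLD hℓ hL hlam
      exact h1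
    · intro b hb ε hε
      obtain ⟨D0, M0, h⟩ := Pool.Agent.K4H18.PO.run_mul hp hq hpq hb A (κ / 3) hκ' hκ3 ε hε
      refine ⟨D0, M0, ?_⟩
      intro M hM S X i₀ D hf hD k
      obtain ⟨N, y, i₀', D', hN, hJ, hf⟩ := hf
      obtain ⟨rfl, rfl, rfl, rfl⟩ : S = Icc 1 M ∧ X = (fun m => m * p ^ N + y) ∧ i₀ = i₀' ∧ D = D' := by
        simpa using hf
      have h1 := h M hM (i₀, D, Pool.Agent.K4H18.PO.pr (Icc 1 M) (fun m => m * p ^ N + y))
        ⟨N, y, hN, by rw [e3]; exact hJ, rfl⟩ hD k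
      exact h1

end Pool.Agent.Results.MP_b08cb4_nt.LongestRuns
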