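import Pool.Agent.K4H92.SP.SP8

/-!
# Changing `n ^ σ` digits of `p ^ n` at random places makes its digits in base `q` equidistributed

Let `p, q ≥ 2` be coprime, for instance different primes, and `σ > 0` as small as we like. Take any integer `y`, for
instance `y = p ^ n`, any nonzero bounded integers `x i`, `i < n`, and a random set `S` of `r` places `i < n`, where
`n ^ σ ≤ r ≤ n - n ^ σ`. Then for almost all `S` all words have the right frequencies in all windows of the base `q`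
digits of `y + ∑ i ∈ S, x i p ^ i` below `p ^ n`. For instance `r` digits of `p ^ n` in base `p` may be changed. So
almost all integers below `p ^ n` with exactly `r` nonzero digits in base `p` have equidistributed digits in base `q`;
the question about `p ^ n` is that about the integers with one nonzero digit, equal to `1`. These families have zero
entropy: they have `exp (n ^ (σ + o (1)))` elements.

The Fourier coefficients are averages over the `r`-element sets of products of unimodular numbers; exchanging two places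
again and again bounds them (`Pool.Agent.K4H92.SP.SP1`) by `(1 - c g / n) ^ k`, `k` about `n ^ σ`, where `g` is the number of the `i`
such that the multiples by bounded integers of `p ^ i h q ^ t / q ^ J` are away from the integers. The result on the
orbits under the multiplications by `p` and `q` in the starting files (`Pool.Agent.TH461.AL`) with the Diophantine input
`Pool.Agent.Y933.KE.powers_far` gives `g ≥ n ^ (1 - τ)` for all but few `t`, uniformly (`SP2` to `SP4`). The second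
moment of the frequencies over most pairs of places is in `SP5` and `SP6`.
-/

set_option autoImplicit false

namespace Pool.Agent.Results.MP_b08cb4_nt.SparseDigits

open Finset

/-- Every word `j` of `l ≤ w` digits in base `q` stands with the right frequency in every window of the `J` lowest places
of `m`, up to an error `T`: the number of the `i < L` such that the digits of `m` at the places `i₀ + i, …, i₀ + i + l - 1`
form the word `j` differs from `L / q ^ l` by at most `T`, if all these places are below `J`. The place `i` is that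
of `q ^ i`. -/
def Equidistributed (q w : ℕ) (T : ℝ) (J m : ℕ) : Prop :=
  ∀ l j i₀ L : ℕ, 1 ≤ l → l ≤ w → j < q ^ l → i₀ + L + l ≤ J + 1 →
    |(((range L).filter (fun i => m / q ^ (i₀ + i) % q ^ l = j)).card : ℝ) - L / (q : ℝ) ^ l| ≤ T

/-- the number of nonzero digits in base `p` of an integer `m < p ^ n` -/
def nonzeroDigits (p n m : ℕ) : ℕ := ((range n).filter (fun i => m / p ^ i % p ≠ 0)).card

open Classical in
/-- Let `p, q ≥ 2` be coprime.

(1) For all `w`, `C`, `A`, `σ > 0` and `ε > 0` there is `n₀` such that for all `n ≥ n₀`, all `N ≤ A n`, all `r` with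
`n ^ σ ≤ r ≤ n - n ^ σ`, all integers `y` and all nonzero integers `x i` with `|x i| ≤ C`, `i < n`: for all the
`r`-element subsets `S` of `{0, …, n - 1}` but at most a proportion `ε`, the integer
`m = y + p ^ N ∑ i ∈ S, x i p ^ i`, if it is not negative, is such that all words of at most `w` digits in base `q` stand
with the right frequency in all windows of places below `p ^ (N + n)`, up to an error `ε n`.

(2) For all `C`, `A`, `σ > 0` and `ε > 0` there is `n₀` such that for all `n ≥ n₀`, all `N ≤ A n`, all `r` with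
`n ^ σ ≤ r ≤ n - n ^ σ`, all integers `y` with `|y| ≤ p ^ ((1 + ε) (N + n))` and all nonzero integers `x i` with
`|x i| ≤ C`, `i < n`: for all the `r`-element subsets `S` of `{0, …, n - 1}` but at most a proportion `ε`, the integer
`m = y + p ^ N ∑ i ∈ S, x i p ^ i`, if it is not negative, is such that for every digit `b < q` the number of digits `b`
in the base `q` expansion of `m`, divided by `(N + n) log_q p`, differs from `1 / q` by at most `4 ε`.

(3) For all `w`, `A`, `σ > 0` and `ε > 0` there is `n₀` such that for all `n ≥ n₀`, all `N ≤ A n` and all `r` with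
`n ^ σ ≤ r ≤ n - n ^ σ`: for all the integers `m < p ^ n` with exactly `r` nonzero digits in base `p` but at most a
proportion `ε`, all words of at most `w` digits in base `q` stand with the right frequency in all windows of places of
`m p ^ N` below `p ^ (N + n)`, up to an error `ε n`, and for every digit `b < q` the number of digits `b` in the base
`q` expansion of `m p ^ N`, divided by `(N + n) log_q p`, differs from `1 / q` by at most `ε`. -/
theorem result (p q : ℕ) (hp : 2 ≤ p) (hq : 2 ≤ q) (hpq : p.Coprime q) :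
    (∀ (w C A : ℕ) (σ ε : ℝ), 0 < σ → 0 < ε → ∃ n₀ : ℕ, ∀ n : ℕ, n₀ ≤ n → ∀ N r : ℕ, N ≤ A * n →
      (n : ℝ) ^ σ ≤ r → (r : ℝ) ≤ n - (n : ℝ) ^ σ → ∀ (y : ℤ) (x : ℕ → ℤ), (∀ i < n, x i ≠ 0 ∧ |x i| ≤ (C : ℤ)) →
      ((((range n).powersetCard r).filter (fun S => ∃ m : ℕ, (m : ℤ) = y + (p : ℤ) ^ N * ∑ i ∈ S, x i * (p : ℤ) ^ i ∧
        ¬ Equidistributed q w (ε * n) (Nat.log q (p ^ (N + n))) m)).card : ℝ) ≤ ε * n.choose r) ∧
    (∀ (C A : ℕ) (σ ε : ℝ), 0 < σ → 0 < ε → ∃ n₀ : ℕ, ∀ n : ℕ, n₀ ≤ n → ∀ N r : ℕ, N ≤ A * n →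
      (n : ℝ) ^ σ ≤ r → (r : ℝ) ≤ n - (n : ℝ) ^ σ → ∀ (y : ℤ) (x : ℕ → ℤ), |(y : ℝ)| ≤ (p : ℝ) ^ ((1 + ε) * (N + n)) →
      (∀ i < n, x i ≠ 0 ∧ |x i| ≤ (C : ℤ)) →
      ((((range n).powersetCard r).filter (fun S => ∃ m : ℕ, (m : ℤ) = y + (p : ℤ) ^ N * ∑ i ∈ S, x i * (p : ℤ) ^ i ∧
        ∃ b < q, 4 * ε < |((Nat.digits q m).count b : ℝ) / ((N + n) * Real.logb q p) - 1 / q|)).card : ℝ) ≤
        ε * n.choose r) ∧
    (∀ (w A : ℕ) (σ ε : ℝ), 0 < σ → 0 < ε → ∃ n₀ : ℕ, ∀ n : ℕ, n₀ ≤ n → ∀ N r : ℕ, N ≤ A * n →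
      (n : ℝ) ^ σ ≤ r → (r : ℝ) ≤ n - (n : ℝ) ^ σ →
      (((range (p ^ n)).filter (fun m => nonzeroDigits p n m = r ∧
        ¬ (Equidistributed q w (ε * n) (Nat.log q (p ^ (N + n))) (m * p ^ N) ∧
          ∀ b < q, |((Nat.digits q (m * p ^ N)).count b : ℝ) / ((N + n) * Real.logb q p) - 1 / q| ≤ ε))).card : ℝ) ≤
        ε * ((range (p ^ n)).filter (fun m => nonzeroDigits p n m = r)).card) := by
  have hqR : (2 : ℝ) ≤ q := by exact_mod_cast hq
  have hq0 : (0 : ℝ) < q := by linarith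
  have hpR : (2 : ℝ) ≤ p := by exact_mod_cast hp
  have hp0 : (0 : ℝ) < p := by linarith
  have hlq : 0 < Real.log (q : ℝ) := Real.log_pos (by linarith)
  have hlp : 0 < Real.log (p : ℝ) := Real.log_pos (by linarith)
  have hlam : 0 < Real.logb q p := by
    have : Real.logb q p = Real.log p / Real.log q := rfl
    rw [this]
    positivity
  -- a common statement
  have main : ∀ (w C A : ℕ) (σ ε : ℝ), 0 < σ → 0 < ε → ∃ n₀ : ℕ, ∀ n : ℕ, n₀ ≤ n → ∀ N r : ℕ, N ≤ A * n →
      (n : ℝ) ^ σ ≤ r → (r : ℝ) ≤ n - (n : ℝ) ^ σ → ∀ (y : ℤ) (x : ℕ → ℤ), (∀ i < n, x i ≠ 0 ∧ |x i| ≤ (C : ℤ)) →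
      ((((range n).powersetCard r).filter (fun S => ∃ m : ℕ, (m : ℤ) = y + (p : ℤ) ^ N * ∑ i ∈ S, x i * (p : ℤ) ^ i ∧
        ¬ (Equidistributed q w (ε * n) (Nat.log q (p ^ (N + n))) m ∧ ((m : ℝ) ≤ (p : ℝ) ^ ((1 + 2 * ε) * (N + n)) →
          ∀ b < q, |((Nat.digits q m).count b : ℝ) / ((N + n) * Real.logb q p) - 1 / q| ≤ 4 * ε)))).card : ℝ) ≤
          ε * n.choose r := by
    intro w C A σ ε hσ hε
    obtain ⟨ε₁, hε₁⟩ : ∃ ε₁ : ℝ, ε₁ = min ε (2 * ε * Real.logb q p / 4) := ⟨_, rfl⟩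
    have hε₁0 : 0 < ε₁ := by
      rw [hε₁]
      exact lt_min hε (by positivity)
    have hε₁1 : ε₁ ≤ ε := by rw [hε₁]; exact min_le_left _ _
    have hε₁2 : ε₁ ≤ 2 * ε * Real.logb q p / 4 := by rw [hε₁]; exact min_le_right _ _
    obtain ⟨n1, h1⟩ := Pool.Agent.K4H92.SP.sparse_good hp hq hpq (w + 1) C A σ ε₁ hσ hε₁0
    obtain ⟨n2, h2⟩ := Pool.Agent.K4H92.SP.freq_of_good (p := p) (q := q) (ε := 2 * ε) hp hq (by positivity)
    refine ⟨n1 + n2 + 1, fun n hn N r hNA hr1 hr2 y x hx => ?_⟩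
    have hn0 : 0 < n := by omega
    obtain ⟨x', hx'⟩ : ∃ x' : ℕ → ℤ, x' = fun i => if i < n then x i else x 0 := ⟨_, rfl⟩
    have hx'1 : ∀ i, x' i ≠ 0 ∧ |x' i| ≤ (C : ℤ) := by
      intro i
      rw [hx']
      simp only
      split_ifs with h
      · exact hx i h
      · exact hx 0 hn0
    have h3 := h1 n (by omega) N hNA r hr1 (by linarith) x' hx'1 y
    have hsum : ∀ S ∈ (range n).powersetCard r, ∑ i ∈ S, x' i * (p : ℤ) ^ i = ∑ i ∈ S, x i * (p : ℤ) ^ i := by
      intro S hS
      rw [mem_powersetCard] at hS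
      apply sum_congr rfl
      intro i hi
      rw [hx']
      simp only
      rw [if_pos (mem_range.1 (hS.1 hi))]
    have h4 : ε₁ * (n.choose r : ℝ) ≤ ε * n.choose r := mul_le_mul_of_nonneg_right hε₁1 (Nat.cast_nonneg _)
    refine le_trans ?_ (h3.trans h4)
    apply Nat.cast_le.2
    apply card_le_card
    intro S hS
    rw [mem_filter] at hS ⊢
    refine ⟨hS.1, ?_⟩
    obtain ⟨m, hm, hbad⟩ := hS.2
    refine ⟨m, by rw [hsum S hS.1]; exact hm, fun hgood => hbad ⟨?_, ?_⟩⟩
    · intro l j i₀ L hl hlw hj hi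
      refine (hgood l j i₀ L hl (by omega) hj hi).trans ?_
      exact mul_le_mul_of_nonneg_right hε₁1 (Nat.cast_nonneg _)
    · intro hmp b hb
      have h5 := h2 (N + n) (by omega) (w + 1) (by omega) m (by push_cast; exact hmp) (by
        intro l j i₀ L hl hlw hj hi
        refine (hgood l j i₀ L hl hlw hj hi).trans ?_
        have h6 : ε₁ * (n : ℝ) ≤ 2 * ε * Real.logb q p / 4 * n := mul_le_mul_of_nonneg_right hε₁2 (Nat.cast_nonneg _)
        have h7 : 2 * ε * Real.logb q p / 4 * (n : ℝ) ≤ 2 * ε * Real.logb q p / 4 * ((N + n : ℕ) : ℝ) := by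
          apply mul_le_mul_of_nonneg_left _ (by positivity)
          push_cast
          linarith [(Nat.cast_nonneg N : (0 : ℝ) ≤ N)]
        linarith) b hb
      push_cast at h5
      linarith
  refine ⟨fun w C A σ ε hσ hε => ?_, fun C A σ ε hσ hε => ?_, fun w A σ ε hσ hε => ?_⟩
  · obtain ⟨n₀, h⟩ := main w C A σ ε hσ hε
    refine ⟨n₀, fun n hn N r hNA hr1 hr2 y x hx => le_trans ?_ (h n hn N r hNA hr1 hr2 y x hx)⟩
    apply Nat.cast_le.2
    apply card_le_card
    intro S hS
    rw [mem_filter] at hS ⊢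
    refine ⟨hS.1, ?_⟩
    obtain ⟨m, hm, hbad⟩ := hS.2
    exact ⟨m, hm, fun hgood => hbad hgood.1⟩
  · obtain ⟨n₀, h⟩ := main 1 C A σ ε hσ hε
    obtain ⟨n1, hn1⟩ := exists_nat_ge (Real.log (C + 1) / (ε * Real.log p))
    refine ⟨n₀ + n1 + 1, fun n hn N r hNA hr1 hr2 y x hy hx => le_trans ?_ (h n (by omega) N r hNA hr1 hr2 y x hx)⟩
    apply Nat.cast_le.2
    apply card_le_card
    intro S hS
    rw [mem_filter] at hS ⊢
    refine ⟨hS.1, ?_⟩
    obtain ⟨m, hm, b, hb, hbad⟩ := hS.2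
    refine ⟨m, hm, fun hgood => not_le.2 hbad (hgood.2 ?_ b hb)⟩
    have hSn : S ⊆ range n := (mem_powersetCard.1 hS.1).1
    -- the size of `m`
    have h1 : |∑ i ∈ S, (x i : ℝ) * (p : ℝ) ^ i| ≤ C * (p : ℝ) ^ n := by
      refine (abs_sum_le_sum_abs _ _).trans ?_
      have h2 : ∀ i ∈ S, |(x i : ℝ) * (p : ℝ) ^ i| ≤ C * (p : ℝ) ^ i := by
        intro i hi
        rw [abs_mul, abs_of_pos (pow_pos hp0 i)]
        apply mul_le_mul_of_nonneg_right _ (by positivity)
        have h3 := (hx i (mem_range.1 (hSn hi))).2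
        exact_mod_cast h3
      refine (sum_le_sum h2).trans ?_
      rw [← mul_sum]
      apply mul_le_mul_of_nonneg_left _ (Nat.cast_nonneg _)
      have h3 : ∑ i ∈ S, (p : ℝ) ^ i ≤ ∑ i ∈ range n, (p : ℝ) ^ i :=
        sum_le_sum_of_subset_of_nonneg hSn fun i _ _ => by positivity
      have h4 : ∑ i ∈ range n, (p : ℝ) ^ i ≤ (p : ℝ) ^ n := by
        have h5 := geom_sum_mul (p : ℝ) n
        have h6 : (0 : ℝ) ≤ ∑ i ∈ range n, (p : ℝ) ^ i := sum_nonneg fun i _ => by positivity
        nlinarith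
      linarith
    have h2 : (m : ℝ) = y + (p : ℝ) ^ N * ∑ i ∈ S, (x i : ℝ) * (p : ℝ) ^ i := by
      have h3 : ((m : ℤ) : ℝ) = ((y + (p : ℤ) ^ N * ∑ i ∈ S, x i * (p : ℤ) ^ i : ℤ) : ℝ) := by rw [hm]
      push_cast at h3
      exact h3
    have h3 : (p : ℝ) ^ N * ∑ i ∈ S, (x i : ℝ) * (p : ℝ) ^ i ≤ (p : ℝ) ^ N * (C * (p : ℝ) ^ n) :=
      mul_le_mul_of_nonneg_left ((le_abs_self _).trans h1) (by positivity)
    have h4 : (p : ℝ) ^ N * (C * (p : ℝ) ^ n) ≤ C * (p : ℝ) ^ ((1 + ε) * ((N : ℝ) + n)) := by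
      have h5 : (p : ℝ) ^ N * (C * (p : ℝ) ^ n) = C * (p : ℝ) ^ ((N : ℝ) + n) := by
        have h6 : (p : ℝ) ^ ((N : ℝ) + n) = (p : ℝ) ^ (N + n) := by
          rw [← Real.rpow_natCast]
          push_cast
          rfl
        rw [h6, pow_add]
        ring
      rw [h5]
      apply mul_le_mul_of_nonneg_left _ (Nat.cast_nonneg _)
      apply Real.rpow_le_rpow_of_exponent_le (by linarith)
      have : (0 : ℝ) ≤ (N : ℝ) + n := by positivity
      nlinarith
    have h5 : ((C : ℝ) + 1) ≤ (p : ℝ) ^ (ε * ((N : ℝ) + n)) := by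
      have h6 : Real.log (C + 1) / (ε * Real.log p) ≤ n := hn1.trans (by exact_mod_cast (by omega : n1 ≤ n))
      rw [div_le_iff₀ (by positivity)] at h6
      have h7 : (n : ℝ) ≤ (N : ℝ) + n := by linarith [(Nat.cast_nonneg N : (0 : ℝ) ≤ N)]
      rw [← Real.log_le_log_iff (by positivity) (by positivity), Real.log_rpow hp0]
      calc Real.log (C + 1) ≤ n * (ε * Real.log p) := h6
        _ ≤ ((N : ℝ) + n) * (ε * Real.log p) := mul_le_mul_of_nonneg_right h7 (by positivity)
        _ = ε * ((N : ℝ) + n) * Real.log p := by ring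
    have h6 : (p : ℝ) ^ ((1 + 2 * ε) * ((N : ℝ) + n)) = (p : ℝ) ^ (ε * ((N : ℝ) + n)) * (p : ℝ) ^ ((1 + ε) * ((N : ℝ) + n)) := by
      rw [← Real.rpow_add hp0]
      congr 1
      ring
    rw [h6, h2]
    have h7 : (y : ℝ) ≤ (p : ℝ) ^ ((1 + ε) * ((N : ℝ) + n)) := (le_abs_self _).trans hy
    have h8 : ((C : ℝ) + 1) * (p : ℝ) ^ ((1 + ε) * ((N : ℝ) + n)) ≤
        (p : ℝ) ^ (ε * ((N : ℝ) + n)) * (p : ℝ) ^ ((1 + ε) * ((N : ℝ) + n)) :=
      mul_le_mul_of_nonneg_right h5 (by positivity)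
    linarith
  · obtain ⟨ε₂, hε₂⟩ : ∃ ε₂ : ℝ, ε₂ = ε / 4 := ⟨_, rfl⟩
    have hε₂0 : 0 < ε₂ := by rw [hε₂]; positivity
    obtain ⟨n₀, h⟩ := main w p A σ ε₂ hσ hε₂0
    refine ⟨n₀, fun n hn N r hNA hr1 hr2 => ?_⟩
    have e0 : ∀ m, nonzeroDigits p n m = (Pool.Agent.K4H92.SP.supp p n m).card := fun m => rfl
    simp only [e0]
    obtain ⟨Bad, hBad⟩ : ∃ Bad : ℕ → Prop, Bad = fun m =>
      ¬ (Equidistributed q w (ε * n) (Nat.log q (p ^ (N + n))) (m * p ^ N) ∧
          ∀ b < q, |((Nat.digits q (m * p ^ N)).count b : ℝ) / ((N + n) * Real.logb q p) - 1 / q| ≤ ε) := ⟨_, rfl⟩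
    have key := Pool.Agent.K4H92.SP.almost_nonzero (p := p) (n := n) (r := r) (ε := ε) hp Bad (by
      intro x hx
      have h1 := h n hn N r hNA hr1 hr2 0 (fun i => (x i : ℤ)) (by
        intro i _
        have h2 := hx i
        refine ⟨by omega, ?_⟩
        rw [abs_of_nonneg (by positivity)]
        exact_mod_cast h2.2.le)
      have h3 : ε₂ * (n.choose r : ℝ) ≤ ε * n.choose r :=
        mul_le_mul_of_nonneg_right (by rw [hε₂]; linarith) (Nat.cast_nonneg _)
      refine le_trans ?_ (h1.trans h3)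
      apply Nat.cast_le.2
      apply card_le_card
      intro S hS
      rw [mem_filter] at hS ⊢
      have hS2 := hS.2
      rw [hBad] at hS2
      refine ⟨hS.1, (∑ i ∈ S, x i * p ^ i) * p ^ N, ?_, fun hgood => hS2 ⟨?_, ?_⟩⟩
      · push_cast
        ring
      · intro l j i₀ L hl hlw hj hi
        refine (hgood.1 l j i₀ L hl hlw hj hi).trans ?_
        apply mul_le_mul_of_nonneg_right _ (Nat.cast_nonneg _)
        rw [hε₂]
        linarith
      · intro b hb
        refine (hgood.2 ?_ b hb).trans (by rw [hε₂]; linarith)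
        have hSn : S ⊆ range n := (mem_powersetCard.1 hS.1).1
        have h4 : ∑ i ∈ S, x i * p ^ i < p ^ n := by
          rw [Pool.Agent.K4H92.SP.sum_over hSn]
          apply Pool.Agent.K4H92.SP.sum_lt (by omega)
          intro i
          split_ifs
          · exact (hx i).2
          · omega
        have h5 : (((∑ i ∈ S, x i * p ^ i) * p ^ N : ℕ) : ℝ) ≤ (p : ℝ) ^ (N + n) := by
          have h6 : (∑ i ∈ S, x i * p ^ i) * p ^ N ≤ p ^ (N + n) := by
            rw [pow_add, mul_comm]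
            exact Nat.mul_le_mul_left _ h4.le
          exact_mod_cast h6
        refine h5.trans ?_
        rw [← Real.rpow_natCast]
        apply Real.rpow_le_rpow_of_exponent_le (by linarith)
        push_cast
        have : (0 : ℝ) ≤ (N : ℝ) + n := by positivity
        nlinarith)
    rw [hBad] at key
    convert key

end Pool.Agent.Results.MP_b08cb4_nt.SparseDigits
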